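import Pool.Agent.Q211.SY.Seq
import Pool.Agent.W868.Base2
import Pool.Agent.W868.Im

/-!
# Countable sets in transitive models
-/

set_option autoImplicit false
set_option linter.unusedSectionVars false
set_option linter.unreachableTactic false
set_option linter.unusedTactic false

namespace Pool.Agent.Q211.SY

open Pool.Agent.W868 Pool.Agent.W868.PName
open ZFSet (pair)

/-- The set `A` is countable in `M`. -/
def CntIn (M : Set ZFSet.{0}) (A : ZFSet.{0}) : Prop := ∃ f ∈ M, IsInj A ZFSet.omega f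

theorem card_le_of_isInj {x y f : ZFSet.{0}} (h : IsInj x y f) : x.card ≤ y.card := by
  obtain ⟨⟨h1, h2⟩, h3⟩ := h
  choose F hF hF' using fun z : {z // z ∈ x} => h2 z.1 z.2
  have hFy : ∀ z, F z ∈ y := fun z => (ZFSet.pair_mem_prod.1 (h1 (hF z))).2
  refine Cardinal.le_def _ _ |>.2 ⟨⟨fun s => equivShrink {z // z ∈ y}
    ⟨F ((equivShrink {z // z ∈ x}).symm s), hFy _⟩, ?_⟩⟩
  intro a b hab
  have h4 := Subtype.ext_iff.1 ((equivShrink _).injective hab)
  have h5 := hF ((equivShrink {z // z ∈ x}).symm b)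
  simp only at h4
  rw [← h4] at h5
  exact (equivShrink {z // z ∈ x}).symm.injective (Subtype.ext (h3 _ _ _ (hF _) h5))

theorem isInj_inv {x y f : ZFSet.{0}} (h : IsBij x y f) : ∃ g, IsInj y x g := by
  obtain ⟨⟨⟨h1, h2⟩, h3⟩, h4⟩ := h
  refine ⟨ZFSet.sep (fun p => ∃ a b, p = pair a b ∧ pair b a ∈ f) (ZFSet.prod y x),
    ⟨fun z hz => (ZFSet.mem_sep.1 hz).1, fun z hz => ?_⟩, fun a b c ha hb => ?_⟩
  · obtain ⟨a, ha, hf⟩ := h4 z hz
    refine ⟨a, ZFSet.mem_sep.2 ⟨ZFSet.pair_mem_prod.2 ⟨hz, ha⟩, z, a, rfl, hf⟩, fun w hw => ?_⟩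
    obtain ⟨-, a', b', h5, h6⟩ := ZFSet.mem_sep.1 hw
    obtain ⟨rfl, rfl⟩ := ZFSet.pair_inj.1 h5
    exact h3 _ _ _ h6 hf
  · obtain ⟨-, a', c', h5, h6⟩ := ZFSet.mem_sep.1 ha
    obtain ⟨rfl, rfl⟩ := ZFSet.pair_inj.1 h5
    obtain ⟨-, b', c', h7, h8⟩ := ZFSet.mem_sep.1 hb
    obtain ⟨rfl, rfl⟩ := ZFSet.pair_inj.1 h7
    exact (h2 _ (ZFSet.pair_mem_prod.1 (h1 h6)).1).unique h6 h8

theorem card_eq_of_isBij {x y f : ZFSet.{0}} (h : IsBij x y f) : x.card = y.card := by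
  obtain ⟨g, hg⟩ := isInj_inv h
  exact le_antisymm (card_le_of_isInj h.1) (card_le_of_isInj hg)

section

variable {M : Set ZFSet.{0}} (hM : IsZF M)

include hM

/-- Finite sets are finite in the model. -/
theorem exists_bij_of_finite {A : ZFSet.{0}} (hA : A ∈ M) (hf : {z | z ∈ A}.Finite) :
    ∃ n, ∃ g ∈ M, IsBij (nat n) A g := by
  classical
  obtain ⟨n, ⟨e⟩⟩ := Finite.exists_equiv_fin {z // z ∈ hf.toFinset}
  let a : ℕ → ZFSet.{0} := fun i => if h : i < n then (e.symm ⟨i, h⟩).1 else ∅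
  have ha : ∀ i (h : i < n), a i = (e.symm ⟨i, h⟩).1 := fun i h => dif_pos h
  have haA : ∀ i < n, a i ∈ A := by
    intro i h
    rw [ha i h]
    exact hf.mem_toFinset.1 (e.symm ⟨i, h⟩).2
  refine ⟨n, fseq a n, fseq_mem hM fun i hi => hM.trans _ hA _ (haA i hi),
    ⟨isFunc_fseq haA, ?_⟩, ?_⟩
  · intro x y z hx hy
    obtain ⟨i, hi, h1⟩ := mem_fseq.1 hx
    obtain ⟨rfl, rfl⟩ := ZFSet.pair_inj.1 h1
    obtain ⟨j, hj, h2⟩ := mem_fseq.1 hy
    obtain ⟨rfl, h3⟩ := ZFSet.pair_inj.1 h2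
    rw [ha i hi, ha j hj] at h3
    have h4 := e.symm.injective (Subtype.ext h3)
    rw [Fin.mk.injEq] at h4
    rw [h4]
  · intro b hb
    have h1 : b ∈ hf.toFinset := hf.mem_toFinset.2 hb
    refine ⟨nat (e ⟨b, h1⟩).1, nat_mem_nat.2 (e ⟨b, h1⟩).2,
      pair_mem_fseq.2 ⟨(e ⟨b, h1⟩).2, ?_⟩⟩
    rw [ha _ (e ⟨b, h1⟩).2]
    simp

/-- Sets with a definable linear order in which all initial segments are finite are countable. -/
theorem cnt_of_order {A : ZFSet.{0}} (hA : A ∈ M) {R : ZFSet.{0} → ZFSet.{0} → Prop}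
    (hR : Dfn M M fun w : Fin 2 → ZFSet.{0} => R (w 0) (w 1))
    (hirr : ∀ x ∈ A, ¬ R x x) (htr : ∀ x ∈ A, ∀ y ∈ A, ∀ z ∈ A, R x y → R y z → R x z)
    (htot : ∀ x ∈ A, ∀ y ∈ A, x = y ∨ R x y ∨ R y x)
    (hfin : ∀ x ∈ A, {y | y ∈ A ∧ R y x}.Finite) : CntIn M A := by
  have hB := hM.base
  have h0 := hM.infinity
  have hP : DfnF M M fun v : Fin 1 → ZFSet.{0} => ZFSet.sep (fun p => R p (v 0)) A :=
    hM.sep' (Q := fun p v => R p (v 0)) (DfnF.const hA) hR
  have hPM : ∀ x ∈ M, ZFSet.sep (fun p => R p x) A ∈ M := fun x hx => hP.1 (fun _ => x) fun _ => hx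
  have hPf : ∀ x ∈ A, {y | y ∈ ZFSet.sep (fun p => R p x) A}.Finite := by
    intro x hx
    refine (hfin x hx).subset fun y hy => ?_
    exact ZFSet.mem_sep.1 hy
  obtain ⟨f, hf, hff, hf'⟩ := hM.rel_mem (x := A) (y := ZFSet.omega) hA h0
    (Q := fun x m => ∃ g ∈ M, IsBij m (ZFSet.sep (fun p => R p x) A) g) (by
      apply Dfn.ex (Q := fun g (v : Fin 2 → ZFSet.{0}) =>
        IsBij (v 1) (ZFSet.sep (fun p => R p (v 0)) A) g)
      refine hB.isBij' (DfnF.proj 2) ?_ (DfnF.proj 0)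
      exact DfnF.comp1 (f := fun a => ZFSet.sep (fun p => R p a) A) hP (DfnF.proj 1))
  have key : ∀ x ∈ A, ∀ y ∈ A, ∀ c g g', IsBij c (ZFSet.sep (fun p => R p x) A) g →
      IsBij c (ZFSet.sep (fun p => R p y) A) g' → ¬ R x y := by
    intro x hx y hy c g g' hg hg' hxy
    have h1 := (card_eq_of_isBij hg).symm.trans (card_eq_of_isBij hg')
    have h2 : insert x (ZFSet.sep (fun p => R p x) A) ⊆ ZFSet.sep (fun p => R p y) A := by
      intro z hz
      rcases ZFSet.mem_insert_iff.1 hz with rfl | hz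
      · exact ZFSet.mem_sep.2 ⟨hx, hxy⟩
      · obtain ⟨h3, h4⟩ := ZFSet.mem_sep.1 hz
        exact ZFSet.mem_sep.2 ⟨h3, htr z h3 x hx y hy h4 hxy⟩
    have h3 := ZFSet.card_mono h2
    have h2' : x ∉ ZFSet.sep (fun p => R p x) A := fun h => hirr x hx (ZFSet.mem_sep.1 h).2
    rw [ZFSet.card_insert h2', ← h1] at h3
    obtain ⟨n, g2, -, hg2⟩ := exists_bij_of_finite hM (hPM x (hM.trans _ hA _ hx)) (hPf x hx)
    rw [← card_eq_of_isBij hg2, card_nat] at h3
    have h4 : ((n + 1 : ℕ) : Cardinal) ≤ (n : ℕ) := by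
      push_cast
      exact h3
    have h5 := Nat.cast_le.1 h4
    omega
  refine ⟨f, hf, ⟨fun z hz => ?_, fun x hx => ?_⟩, fun x y c hx hy => ?_⟩
  · exact hff hz
  · obtain ⟨n, g, hg, hg'⟩ := exists_bij_of_finite hM (hPM x (hM.trans _ hA _ hx)) (hPf x hx)
    refine ⟨nat n, (hf' _ _).2 ⟨hx, mem_omega_iff.2 ⟨n, rfl⟩, g, hg, hg'⟩, fun m hm => ?_⟩
    obtain ⟨-, hm', g2, hg2, hg2'⟩ := (hf' _ _).1 hm
    obtain ⟨m, rfl⟩ := mem_omega_iff.1 hm'
    have h1 := (card_eq_of_isBij hg2').trans (card_eq_of_isBij hg').symm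
    rw [card_nat, card_nat] at h1
    rw [Nat.cast_inj.1 h1]
  · obtain ⟨hxA, -, g, -, hg⟩ := (hf' _ _).1 hx
    obtain ⟨hyA, -, g', -, hg'⟩ := (hf' _ _).1 hy
    rcases htot x hxA y hyA with h | h | h
    · exact h
    · exact absurd h (key x hxA y hyA c g g' hg hg')
    · exact absurd h (key y hyA x hxA c g' g hg' hg)

/-- Images of countable sets under definable partial maps are countable. -/
theorem cnt_image {A Y : ZFSet.{0}} (hA : CntIn M A) (hAM : A ∈ M) (hY : Y ∈ M)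
    {G : ZFSet.{0} → ZFSet.{0} → Prop} (hG : Dfn M M fun w : Fin 2 → ZFSet.{0} => G (w 0) (w 1))
    (h1 : ∀ κ ∈ A, ∀ x ∈ Y, ∀ y ∈ Y, G κ x → G κ y → x = y)
    (h2 : ∀ x ∈ Y, ∃ κ ∈ A, G κ x) : CntIn M Y := by
  have hB := hM.base
  have h0 := hM.infinity
  obtain ⟨f, hf, hfi⟩ := hA
  obtain ⟨e, he, hee, he'⟩ := hM.rel_mem (x := Y) (y := ZFSet.omega) hY h0
    (Q := fun x m => (∃ κ ∈ A, pair κ m ∈ f ∧ G κ x) ∧ ∀ n ∈ m, ¬ ∃ κ ∈ A, pair κ n ∈ f ∧ G κ x) (by
      have h3 : ∀ {n : ℕ} (i j : Fin n), Dfn M M fun w : Fin n → ZFSet.{0} => G (w i) (w j) :=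
        fun i j => hG.comp ![i, j]
      apply Dfn.and
      · apply hB.bex (Q := fun κ v => pair κ (v 1) ∈ f ∧ G κ (v 0)) (DfnF.const hAM)
        apply Dfn.and
        · (repeat' first
            | assumption
            | exact DfnF.proj _
            | exact DfnF.const (by assumption)
            | exact DfnF.const' (by first | assumption | trivial) (by first | assumption | trivial)
            | exact Dfn.prop _
            | apply Dfn.not | apply Dfn.and | apply Dfn.or | apply Dfn.imp | apply Dfn.iff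
            | apply hB.bex | apply hB.ball | apply Dfn.ex | apply Dfn.all
            | apply Dfn.eq | apply Dfn.mem | apply hB.pair' | apply hB.subset' | apply hB.insert'
            | apply hB.isFunc' | apply hB.isInj' | apply hB.isBij' | apply hB.isOrdinal')
        · exact h3 0 1
      · apply hB.ball (Q := fun n v => ¬ ∃ κ ∈ A, pair κ n ∈ f ∧ G κ (v 0)) (DfnF.proj 1)
        apply Dfn.not
        apply hB.bex (Q := fun κ v => pair κ (v 0) ∈ f ∧ G κ (v 1)) (DfnF.const hAM)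
        apply Dfn.and
        · (repeat' first
            | assumption
            | exact DfnF.proj _
            | exact DfnF.const (by assumption)
            | exact DfnF.const' (by first | assumption | trivial) (by first | assumption | trivial)
            | exact Dfn.prop _
            | apply Dfn.not | apply Dfn.and | apply Dfn.or | apply Dfn.imp | apply Dfn.iff
            | apply hB.bex | apply hB.ball | apply Dfn.ex | apply Dfn.all
            | apply Dfn.eq | apply Dfn.mem | apply hB.pair' | apply hB.subset' | apply hB.insert'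
            | apply hB.isFunc' | apply hB.isInj' | apply hB.isBij' | apply hB.isOrdinal')
        · exact h3 0 2)
  refine ⟨e, he, ⟨hee, fun x hx => ?_⟩, fun x y c hx hy => ?_⟩
  · classical
    have h3 : ∃ m : ℕ, ∃ κ ∈ A, pair κ (nat m) ∈ f ∧ G κ x := by
      obtain ⟨κ, hκ, h4⟩ := h2 x hx
      obtain ⟨m, hm, -⟩ := hfi.1.2 κ hκ
      obtain ⟨k, rfl⟩ := mem_omega_iff.1 (ZFSet.pair_mem_prod.1 (hfi.1.1 hm)).2
      exact ⟨k, κ, hκ, hm, h4⟩
    have h4 : ∀ n ∈ nat (Nat.find h3), ¬ ∃ κ ∈ A, pair κ n ∈ f ∧ G κ x := by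
      intro n hn h5
      obtain ⟨i, hi, rfl⟩ := mem_nat_iff.1 hn
      exact Nat.find_min h3 hi h5
    refine ⟨nat (Nat.find h3), (he' _ _).2 ⟨hx, mem_omega_iff.2 ⟨_, rfl⟩,
      Nat.find_spec h3, h4⟩, fun m hm => ?_⟩
    obtain ⟨-, h5, h6, h7⟩ := (he' _ _).1 hm
    obtain ⟨k, rfl⟩ := mem_omega_iff.1 h5
    congr 1
    refine le_antisymm ?_ (Nat.find_min' h3 h6)
    by_contra h8
    exact h7 _ (nat_mem_nat.2 (not_le.1 h8)) (Nat.find_spec h3)
  · obtain ⟨hxY, -, ⟨κ, hκ, h3, h4⟩, -⟩ := (he' _ _).1 hx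
    obtain ⟨hyY, -, ⟨κ', hκ', h5, h6⟩, -⟩ := (he' _ _).1 hy
    have h7 := hfi.2 _ _ _ h3 h5
    subst h7
    exact h1 κ hκ x hxY y hyY h4 h6

end

end Pool.Agent.Q211.SY
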