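import Pool.Agent.Q211.SY.Seq

/-!
# Names for finite sets
-/

set_option autoImplicit false
set_option linter.unusedSectionVars false

namespace Pool.Agent.Q211.SY

open Pool.Agent.W868 Pool.Agent.W868.PName
open ZFSet (pair)

variable {P : Type} [Preorder P] [OrderTop P]

/-- The name for the set `{x} ∪ y`. -/
def insN (x y : PName P) : PName P :=
  PName.mk (Option y.idx) (fun o => o.elim x y.chd) (fun o => o.elim ⊤ y.cnd)

theorem el_insN {x y z : PName P} {c : P} : El (insN x y) z c ↔ (z = x ∧ c = ⊤) ∨ El y z c := by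
  rw [insN, el_mk]
  constructor
  · rintro ⟨o, rfl, rfl⟩
    cases o with
    | none => exact Or.inl ⟨rfl, rfl⟩
    | some i => exact Or.inr ⟨i, rfl, rfl⟩
  · rintro (⟨rfl, rfl⟩ | ⟨i, rfl, rfl⟩)
    · exact ⟨none, rfl, rfl⟩
    · exact ⟨some i, rfl, rfl⟩

theorem act_insN {e : P ≃o P} (he : e ⊤ = ⊤) (x y : PName P) :
    act e (insN x y) = insN (act e x) (act e y) := by
  cases y with
  | mk ι y c =>
    rw [insN, insN, act]
    congr 1
    · funext o
      cases o <;> rfl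
    · funext o
      cases o
      · exact he
      · rfl

theorem feq_insN {x y x' y' : PName P} {p : P} (hx : Feq x x' p) (hy : Feq y y' p) :
    Feq (insN x y) (insN x' y') p := by
  rw [feq_iff'] at hy ⊢
  constructor
  · intro a c ha q hq hqc
    rcases el_insN.1 ha with ⟨rfl, rfl⟩ | ha
    · exact ⟨q, le_rfl, x', ⊤, el_insN.2 (Or.inl ⟨rfl, rfl⟩), le_top, hx.mono hq⟩
    · obtain ⟨s, hs, w, d, hw, hd, h⟩ := hy.1 a c ha q hq hqc
      exact ⟨s, hs, w, d, el_insN.2 (Or.inr hw), hd, h⟩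
  · intro a c ha q hq hqc
    rcases el_insN.1 ha with ⟨rfl, rfl⟩ | ha
    · exact ⟨q, le_rfl, x, ⊤, el_insN.2 (Or.inl ⟨rfl, rfl⟩), le_top, hx.mono hq⟩
    · obtain ⟨s, hs, w, d, hw, hd, h⟩ := hy.2 a c ha q hq hqc
      exact ⟨s, hs, w, d, el_insN.2 (Or.inr hw), hd, h⟩

theorem hs_insN (S : Sys P) {x y : PName P} (hx : S.HS x) (hy : S.HS y) : S.HS (insN x y) := by
  refine S.hs_iff.2 ⟨?_, fun z c hz => ?_⟩
  · obtain ⟨H, hH, h1⟩ := hx.sym
    obtain ⟨K, hK, h2⟩ := hy.sym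
    obtain ⟨L, hL, h3, h4⟩ := S.inf2 hH hK
    refine ⟨L, hL, fun g hg p => ?_⟩
    rw [act_insN (S.top g)]
    exact feq_insN (h1 g (h3 hg) p) (h2 g (h4 hg) p)
  · rcases el_insN.1 hz with ⟨rfl, -⟩ | hz
    · exact hx
    · exact hy.el hz

theorem val_insN (π : Pkg P) {x y : PName P} (hx : x ∈ π.N) (hy : y ∈ π.N) :
    π.val (insN x y) = insert (π.val x) (π.val y) := by
  ext z
  rw [π.mem_val, ZFSet.mem_insert_iff, π.mem_val]
  constructor
  · rintro ⟨w, hw, c, hc, hm, rfl⟩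
    rcases el_insN.1 hc with ⟨rfl, -⟩ | hc
    · exact Or.inl rfl
    · exact Or.inr ⟨w, hw, c, hc, hm, rfl⟩
  · rintro (rfl | ⟨w, hw, c, hc, hm, rfl⟩)
    · exact ⟨x, hx, ⊤, el_insN.2 (Or.inl ⟨rfl, rfl⟩), ⟨0, le_top⟩, rfl⟩
    · exact ⟨w, hw, c, el_insN.2 (Or.inr hc), hm, rfl⟩

/-- The rule given by an operation on two names. -/
def rn (F : PName P → PName P → PName P) : Rule P := fun q => match q with
  | ⟨_, .mem s t, v, p⟩ => (F (tv v s) (tv v t), p)
  | q => (emp, q.p)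

theorem rn_mem {R : Set (Rule P)} {π : Pkg P} (hR : ClR R π) {F : PName P → PName P → PName P}
    (hF : rn F ∈ R) {x y : PName P} (hx : x ∈ π.N) (hy : y ∈ π.N) : F x y ∈ π.N :=
  (hR _ hF _ (query2 hx hy (π.gC 0))).1

/-- The name for a finite set. -/
def fnl {ι : Type} (un : ι → PName P) : List ι → PName P
  | [] => emp
  | u :: l => insN (un u) (fnl un l)

section

variable {ι : Type} {un : ι → PName P}

theorem el_fnl {l : List ι} {z : PName P} {c : P} :
    El (fnl un l) z c ↔ (∃ u ∈ l, z = un u) ∧ c = ⊤ := by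
  induction l with
  | nil =>
    simp only [fnl, List.not_mem_nil, false_and, exists_false, iff_false]
    rintro ⟨i, -, -⟩
    exact i.elim
  | cons u l ih =>
    rw [fnl, el_insN, ih]
    simp only [List.mem_cons, exists_eq_or_imp]
    tauto

theorem fnl_mem {R : Set (Rule P)} {π : Pkg P} (hR : ClR R π) (hF : rn insN ∈ R) {l : List ι}
    (h : ∀ u ∈ l, un u ∈ π.N) : fnl un l ∈ π.N := by
  induction l with
  | nil => exact emp_mem π
  | cons u l ih =>
    exact rn_mem hR hF (h u (List.mem_cons_self)) (ih fun v hv => h v (List.mem_cons_of_mem _ hv))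

theorem mem_fnl (π : Pkg P) {l : List ι} {z : ZFSet.{0}} :
    z ∈ π.val (fnl un l) ↔ ∃ u ∈ l, un u ∈ π.N ∧ z = π.val (un u) := by
  rw [π.mem_val]
  constructor
  · rintro ⟨w, hw, c, hc, -, rfl⟩
    obtain ⟨⟨u, hu, rfl⟩, -⟩ := el_fnl.1 hc
    exact ⟨u, hu, hw, rfl⟩
  · rintro ⟨u, hu, hw, rfl⟩
    exact ⟨_, hw, ⊤, el_fnl.2 ⟨⟨u, hu, rfl⟩, rfl⟩, ⟨0, le_top⟩, rfl⟩

theorem act_fnl {e : P ≃o P} (he : e ⊤ = ⊤) {m : ι → ι} (h : ∀ u, act e (un u) = un (m u))
    (l : List ι) : act e (fnl un l) = fnl un (l.map m) := by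
  induction l with
  | nil => exact act_emp e
  | cons u l ih => rw [fnl, act_insN he, ih, h, List.map_cons, fnl]

theorem hs_emp (S : Sys P) : S.HS (emp : PName P) := by
  refine S.hs_iff.2 ⟨?_, fun z c hz => ?_⟩
  · obtain ⟨H, hH⟩ := S.ne
    refine ⟨H, hH, fun g _ p => ?_⟩
    rw [act_emp]
    exact Feq.refl _ _
  · obtain ⟨i, -, -⟩ := hz
    exact i.elim

theorem hs_fnl (S : Sys P) (h : ∀ u, S.HS (un u)) (l : List ι) : S.HS (fnl un l) := by
  induction l with
  | nil => exact hs_emp S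
  | cons u l ih => exact hs_insN S (h u) ih

/-- The code of a list from its name. -/
noncomputable def cdl (un : ι → PName P) (x : PName P) (_ : P) : PName P :=
  open Classical in if h : ∃ l : List ι, x = fnl un l then check (cd h.choose) else emp

theorem cdl_mem {R : Set (Rule P)} {π : Pkg P} (hR : ClR R π) (hF : r0 (cdl un) ∈ R)
    {l : List ι} (hl : fnl un l ∈ π.N) : ∃ l' : List ι, fnl un l' = fnl un l ∧
      (check (cd l') : PName P) ∈ π.N := by
  have h1 := r0_mem hR hF hl 0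
  have h2 : ∃ l' : List ι, fnl un l = fnl un l' := ⟨l, rfl⟩
  unfold cdl at h1
  rw [dif_pos h2] at h1
  exact ⟨h2.choose, h2.choose_spec.symm, h1⟩

end

end Pool.Agent.Q211.SY
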