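import Pool.Agent.Q211.SY.Frc

/-!
# Finite sequences in transitive models, and composition of definable relations
-/

set_option autoImplicit false
set_option linter.unusedSectionVars false
set_option linter.unreachableTactic false
set_option linter.unusedTactic false

namespace Pool.Agent.Q211.SY

open Pool.Agent.W868 Pool.Agent.W868.PName
open ZFSet (pair)

/-- The finite sequence `a 0, ..., a (n - 1)` as a set. -/
noncomputable def fseq (a : ℕ → ZFSet.{0}) : ℕ → ZFSet.{0}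
  | 0 => ∅
  | n + 1 => insert (pair (nat n) (a n)) (fseq a n)

theorem mem_nat_iff {n : ℕ} {x : ZFSet.{0}} : x ∈ nat n ↔ ∃ i < n, x = nat i := by
  induction n with
  | zero => simp [nat]
  | succ n ih =>
    rw [nat, ZFSet.mem_insert_iff, ih]
    constructor
    · rintro (rfl | ⟨i, hi, rfl⟩)
      · exact ⟨n, Nat.lt_succ_self n, rfl⟩
      · exact ⟨i, hi.trans (Nat.lt_succ_self n), rfl⟩
    · rintro ⟨i, hi, rfl⟩
      rcases Nat.lt_succ_iff_lt_or_eq.1 hi with h | rfl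
      · exact Or.inr ⟨i, h, rfl⟩
      · exact Or.inl rfl

theorem nat_mem_nat {i n : ℕ} : nat i ∈ nat n ↔ i < n := by
  rw [mem_nat_iff]
  constructor
  · rintro ⟨j, hj, h⟩
    rwa [nat_injective h]
  · exact fun h => ⟨i, h, rfl⟩

theorem mem_fseq {a : ℕ → ZFSet.{0}} {n : ℕ} {z : ZFSet.{0}} :
    z ∈ fseq a n ↔ ∃ i < n, z = pair (nat i) (a i) := by
  induction n with
  | zero => simp [fseq]
  | succ n ih =>
    rw [fseq, ZFSet.mem_insert_iff, ih]
    constructor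
    · rintro (rfl | ⟨i, hi, rfl⟩)
      · exact ⟨n, Nat.lt_succ_self n, rfl⟩
      · exact ⟨i, hi.trans (Nat.lt_succ_self n), rfl⟩
    · rintro ⟨i, hi, rfl⟩
      rcases Nat.lt_succ_iff_lt_or_eq.1 hi with h | rfl
      · exact Or.inr ⟨i, h, rfl⟩
      · exact Or.inl rfl

theorem pair_mem_fseq {a : ℕ → ZFSet.{0}} {n i : ℕ} {z : ZFSet.{0}} :
    pair (nat i) z ∈ fseq a n ↔ i < n ∧ z = a i := by
  rw [mem_fseq]
  constructor
  · rintro ⟨j, hj, h⟩
    obtain ⟨h1, h2⟩ := ZFSet.pair_injective h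
    have h3 := nat_injective h1
    subst h3
    exact ⟨hj, h2⟩
  · rintro ⟨h1, rfl⟩
    exact ⟨i, h1, rfl⟩

theorem isFunc_fseq {a : ℕ → ZFSet.{0}} {n : ℕ} {X : ZFSet.{0}} (h : ∀ i < n, a i ∈ X) :
    ZFSet.IsFunc (nat n) X (fseq a n) := by
  refine ⟨fun z hz => ?_, fun z hz => ?_⟩
  · obtain ⟨i, hi, rfl⟩ := mem_fseq.1 hz
    exact ZFSet.pair_mem_prod.2 ⟨nat_mem_nat.2 hi, h i hi⟩
  · obtain ⟨i, hi, rfl⟩ := mem_nat_iff.1 hz
    exact ⟨a i, pair_mem_fseq.2 ⟨hi, rfl⟩, fun w hw => (pair_mem_fseq.1 hw).2⟩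

theorem fseq_mem {M : Set ZFSet.{0}} (hM : IsZF M) {a : ℕ → ZFSet.{0}} {n : ℕ}
    (h : ∀ i < n, a i ∈ M) : fseq a n ∈ M := by
  induction n with
  | zero => exact hM.empty_mem
  | succ n ih =>
    exact hM.insert_mem (hM.pair_mem (hM.nat_mem n) (h n (Nat.lt_succ_self n)))
      (ih fun i hi => h i (hi.trans (Nat.lt_succ_self n)))

/-! ### Composition -/

section comp

variable {n : ℕ}

theorem UD.comp1M {Q : Set ZFSet.{0} → ZFSet.{0} → Prop}
    {F : Set ZFSet.{0} → (Fin n → ZFSet.{0}) → ZFSet.{0}}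
    (h : UD fun M (w : Fin 1 → ZFSet.{0}) => Q M (w 0)) (hF : UF F) :
    UD fun M v => Q M (F M v) := by
  have h1 := h.comp (fun _ => 0 : Fin 1 → Fin (n + 1))
  exact UD.subst (Q := fun M a _ => Q M a) h1 hF

theorem UD.comp2M {Q : Set ZFSet.{0} → ZFSet.{0} → ZFSet.{0} → Prop}
    {F G : Set ZFSet.{0} → (Fin n → ZFSet.{0}) → ZFSet.{0}}
    (h : UD fun M (w : Fin 2 → ZFSet.{0}) => Q M (w 0) (w 1)) (hF : UF F)
    (hG : UF G) : UD fun M v => Q M (F M v) (G M v) := by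
  refine UD.subst (Q := fun M a v => Q M a (G M v)) ?_ hF
  refine UD.subst (Q := fun M a v => Q M (v 0) a) ?_ hG.tail
  exact h.comp ![1, 0]

theorem UD.comp3M {Q : Set ZFSet.{0} → ZFSet.{0} → ZFSet.{0} → ZFSet.{0} → Prop}
    {F G H : Set ZFSet.{0} → (Fin n → ZFSet.{0}) → ZFSet.{0}}
    (h : UD fun M (w : Fin 3 → ZFSet.{0}) => Q M (w 0) (w 1) (w 2)) (hF : UF F)
    (hG : UF G) (hH : UF H) : UD fun M v => Q M (F M v) (G M v) (H M v) := by
  refine UD.subst (Q := fun M a v => Q M a (G M v) (H M v)) ?_ hF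
  refine UD.subst (Q := fun M a v => Q M (v 0) a (H M (Fin.tail v))) ?_ hG.tail
  refine UD.subst (Q := fun M a v => Q M (v 1) (v 0) a) ?_ hH.tail.tail
  exact h.comp ![2, 1, 0]

theorem UD.comp4M {Q : Set ZFSet.{0} → ZFSet.{0} → ZFSet.{0} → ZFSet.{0} → ZFSet.{0} → Prop}
    {F G H I : Set ZFSet.{0} → (Fin n → ZFSet.{0}) → ZFSet.{0}}
    (h : UD fun M (w : Fin 4 → ZFSet.{0}) => Q M (w 0) (w 1) (w 2) (w 3)) (hF : UF F)
    (hG : UF G) (hH : UF H) (hI : UF I) :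
    UD fun M v => Q M (F M v) (G M v) (H M v) (I M v) := by
  refine UD.subst (Q := fun M a v => Q M a (G M v) (H M v) (I M v)) ?_ hF
  refine UD.subst (Q := fun M a v => Q M (v 0) a (H M (Fin.tail v)) (I M (Fin.tail v))) ?_ hG.tail
  refine UD.subst (Q := fun M a v => Q M (v 1) (v 0) a (I M (Fin.tail (Fin.tail v)))) ?_
    hH.tail.tail
  refine UD.subst (Q := fun M a v => Q M (v 2) (v 1) (v 0) a) ?_ hI.tail.tail.tail
  exact h.comp ![3, 2, 1, 0]

theorem over_univ {A : Type*} {m : ℕ} (φ : Fml A m) : φ.Over Set.univ := by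
  induction φ with
  | mem s t => exact ⟨fun _ _ => trivial, fun _ _ => trivial⟩
  | eq s t => exact ⟨fun _ _ => trivial, fun _ _ => trivial⟩
  | neg φ ih => exact ih
  | and φ ψ ih1 ih2 => exact ⟨ih1, ih2⟩
  | ex φ ih => exact ih

/-- A uniformly definable relation is definable in each model. -/
theorem UD.dfn {R : Set ZFSet.{0} → (Fin n → ZFSet.{0}) → Prop} (h : UD R)
    {M : Set ZFSet.{0}} (hM : IsZF M) : Dfn M M fun v => R M v := by
  obtain ⟨φ, h1⟩ := h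
  refine ⟨φ.map fun _ => ZFSet.omega, ?_, fun v hv => ?_⟩
  · rw [over_map]
    exact Fml.Over.mono (S := Set.univ) (φ := φ) (fun _ _ => hM.infinity) (over_univ φ)
  · rw [sat_map]
    exact h1 M hM v hv

end comp

end Pool.Agent.Q211.SY
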