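import Pool.Agent.W868.NDfn

/-!
# Symmetric submodels of generic extensions: definitions
-/

set_option autoImplicit false
set_option linter.unusedSectionVars false

namespace Pool.Agent.Q211.SY

open Pool.Agent.W868 Pool.Agent.W868.PName
open ZFSet (pair)

variable {P : Type} [Preorder P] [OrderTop P]

/-- The action of an order automorphism on names. -/
def act (e : P ≃o P) : PName P → PName P
  | .mk ι x c => .mk ι (fun i => act e (x i)) (fun i => e (c i))

variable (P) in
/-- A group of automorphisms of `P` with a normal filter of subgroups, given by a basis. -/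
structure Sys where
  /-- the group -/
  G : Type
  /-- it is a group -/
  grp : Group G
  /-- the action on the conditions -/
  ac : G →* (P ≃o P)
  top : ∀ g, ac g ⊤ = ⊤
  /-- the basis of the filter of subgroups -/
  F : Set (Subgroup G)
  ne : F.Nonempty
  conj : ∀ H ∈ F, ∀ g : G, ∃ K ∈ F, ∀ k ∈ K, g⁻¹ * k * g ∈ H
  dir : ∀ H ∈ F, ∀ K ∈ F, ∃ L ∈ F, L ≤ H ∧ L ≤ K

attribute [instance] Sys.grp

namespace Sys

variable (S : Sys P)

/-- The subgroup `H` fixes the name `x`. -/
def Fix (H : Subgroup S.G) (x : PName P) : Prop := ∀ g ∈ H, ∀ p, Feq (act (S.ac g) x) x p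

/-- The name `x` is symmetric. -/
def Sym (x : PName P) : Prop := ∃ H ∈ S.F, S.Fix H x

/-- Hereditarily symmetric names. -/
def HS : PName P → Prop
  | .mk ι x c => S.Sym (.mk ι x c) ∧ ∀ i, HS (x i)

/-- The forcing relation with quantification over hereditarily symmetric names. -/
def FS : {n : ℕ} → Fml (PName P) n → (Fin n → PName P) → P → Prop
  | _, .mem s t, v, p => Fmem (tv v s) (tv v t) p
  | _, .eq s t, v, p => Feq (tv v s) (tv v t) p
  | _, .neg φ, v, p => ∀ q ≤ p, ¬ FS φ v q
  | _, .and φ ψ, v, p => FS φ v p ∧ FS ψ v p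
  | _, .ex φ, v, p => ∀ q ≤ p, ∃ s ≤ q, ∃ x, S.HS x ∧ FS φ (Fin.cons x v) s

/-- The symmetric submodel. -/
def Ms (π : Pkg P) : Set ZFSet.{0} := π.val '' {x | x ∈ π.N ∧ S.HS x}

/-- The name with all the translates of the names `f i`. -/
def orb (ι : Type) (f : ι → PName P) : PName P :=
  PName.mk (S.G × ι) (fun t => act (S.ac t.1) (f t.2)) (fun _ => ⊤)

/-- Separation. -/
def sepS {n : ℕ} (φ : Fml (PName P) (n + 1)) (v : Fin n → PName P) (x : PName P) : PName P :=
  subN x fun z r => S.FS φ (Fin.cons z v) r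

open Classical in
/-- A hereditarily symmetric witness for an existential formula. -/
noncomputable def witS {n : ℕ} (φ : Fml (PName P) (n + 1)) (v : Fin n → PName P) (p : P) :
    PName P := if h : ∃ w, S.HS w ∧ S.FS φ (Fin.cons w v) p then h.choose else emp

variable (P) in
/-- The name for the statement that the set `A` of conditions meets the filter. -/
def nm (A : Set P) : PName P := PName.mk {r // r ∈ A} (fun _ => emp) (fun r => r.1)

/-- Truth. -/
def rF : Rule P := fun q => (nm P {r | S.FS q.φ q.v r}, q.p)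

/-- Existential statements. -/
def rX : Rule P := fun q => match q with
  | ⟨_, .ex φ, v, p⟩ => (nm P {r | ∃ x, S.HS x ∧ S.FS φ (Fin.cons x v) r}, p)
  | q => (emp, q.p)

/-- Witnesses. -/
noncomputable def rWt : Rule P := fun q => match q with
  | ⟨_, .ex φ, v, p⟩ => (S.witS φ v p, p)
  | q => (emp, q.p)

/-- Separation. -/
def rSp : Rule P := fun q => match q with
  | ⟨_ + 1, φ, v, p⟩ => (S.sepS φ (Fin.tail v) (v 0), p)
  | q => (emp, q.p)

/-- Pairs. -/
def rPr : Rule P := fun q => match q with
  | ⟨_, .mem s t, v, p⟩ => (S.orb Bool fun b => cond b (tv v s) (tv v t), p)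
  | q => (emp, q.p)

/-- Unions. -/
def rUn : Rule P := fun q => match q with
  | ⟨_, .mem s _, v, p⟩ => (S.orb (Σ i : (tv v s).idx, ((tv v s).chd i).idx)
      fun t => ((tv v s).chd t.1).chd t.2, p)
  | q => (emp, q.p)

/-- Power sets. -/
def rPw : Rule P := fun q => match q with
  | ⟨_, .mem s _, v, p⟩ => (S.orb {T : (tv v s).idx → P → Prop // S.HS (subI (tv v s) T)}
      fun T => subI (tv v s) T.1, p)
  | q => (emp, q.p)

/-- Collection. -/
noncomputable def rCl : Rule P := fun q => match q with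
  | ⟨_ + 1, .ex φ, v, p⟩ => (S.orb {t : (v 0).idx × P //
      ∃ w, S.HS w ∧ S.FS φ (Fin.cons w (Fin.cons ((v 0).chd t.1) (Fin.tail v))) t.2}
      fun t => S.witS φ (Fin.cons ((v 0).chd t.1.1) (Fin.tail v)) t.1.2, p)
  | q => (emp, q.p)

open Classical in
/-- Symmetric names for a given set. -/
noncomputable def rSy : Rule P := fun q => match q with
  | ⟨_, .mem s _, v, p⟩ =>
    if h : ∃ σ, S.HS σ ∧ Feq (tv v s) σ p then (h.choose, p) else (emp, p)
  | q => (emp, q.p)

/-- The statement that a set has a symmetric name. -/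
def rSn : Rule P := fun q => match q with
  | ⟨_, .mem s _, v, p⟩ => (nm P {r | ∃ σ, S.HS σ ∧ Feq (tv v s) σ r}, p)
  | q => (emp, q.p)

/-- The rules for the symmetric submodel. -/
def rules : Set (Rule P) :=
  {S.rF, S.rX, S.rWt, S.rSp, S.rPr, S.rUn, S.rPw, S.rCl, S.rSy, S.rSn}

/-- The package is closed under the rules for the symmetric submodel. -/
def Cld (π : Pkg P) : Prop :=
  ∀ ρ ∈ S.rules, ∀ q : Query P, q.In π.N π.C → (ρ q).1 ∈ π.N ∧ (ρ q).2 ∈ π.C

end Sys

end Pool.Agent.Q211.SY
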