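import Pool.Agent.Q211.SY.Ud

/-!
# Forcing of uniformly definable relations over the symmetric submodels
-/

set_option autoImplicit false
set_option linter.unusedSectionVars false

namespace Pool.Agent.Q211.SY

open Pool.Agent.W868 Pool.Agent.W868.PName
open ZFSet (pair)

variable {P : Type} [Preorder P] [OrderTop P]

/-- The formula over the names. -/
noncomputable def nf {n : ℕ} (φ : Fml Unit n) : Fml (PName P) n :=
  φ.map fun _ => check ZFSet.omega

namespace Sys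

variable (S : Sys P) {n : ℕ} {R : Set ZFSet.{0} → (Fin n → ZFSet.{0}) → Prop}

/-- `p` forces that the symmetric submodel satisfies `R x`. -/
def Frc (h : UD R) (x : Fin n → PName P) (p : P) : Prop := S.FS (nf h.choose) x p

theorem over_nf (φ : Fml Unit n) {T : Set (PName P)} (hT : check ZFSet.omega ∈ T) :
    (nf φ : Fml (PName P) n).Over T := by
  unfold nf
  rw [over_map]
  refine Fml.Over.mono (S := Set.univ) (φ := φ) (fun _ _ => hT) ?_
  induction φ with
  | mem s t => exact ⟨fun _ _ => trivial, fun _ _ => trivial⟩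
  | eq s t => exact ⟨fun _ _ => trivial, fun _ _ => trivial⟩
  | neg φ ih => exact ih
  | and φ ψ ih1 ih2 => exact ⟨ih1, ih2⟩
  | ex φ ih => exact ih

variable {S} {π : Pkg P}

/-- Membership in the symmetric submodel. -/
theorem mem_Ms {x : PName P} (hx : x ∈ π.N) (hS : S.HS x) : π.val x ∈ S.Ms π :=
  ⟨x, ⟨hx, hS⟩, rfl⟩

/-- The truth lemma. -/
theorem frc_iff (h : UD R) (hcl : S.Cld π) {x : Fin n → PName P}
    (hx : ∀ i, x i ∈ π.N ∧ S.HS (x i)) :
    R (S.Ms π) (π.val ∘ x) ↔ ∃ k, S.Frc h x (π.g k) := by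
  have h1 := T_TRU.tru S π hcl (nf h.choose)
    (over_nf h.choose (T := {x | x ∈ π.N ∧ S.HS x}) ⟨π.om, S.hs_check _⟩) x hx
  rw [← h.choose_spec (S.Ms π) (T_ZF.isZF hcl) (π.val ∘ x) fun i => mem_Ms (hx i).1 (hx i).2]
  unfold Frc
  rw [← h1, nf, sat_map]
  have h2 : (π.val ∘ fun _ : Unit => check ZFSet.omega) = fun _ => ZFSet.omega := by
    funext i
    exact π.hat_omega
  rw [h2]

theorem Frc.mono {h : UD R} {x : Fin n → PName P} {p q : P} (hf : S.Frc h x p) (hq : q ≤ p) :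
    S.Frc h x q := FS.mono hf hq

theorem frc_dense {h : UD R} {x : Fin n → PName P} {p : P}
    (hf : ∀ q ≤ p, ∃ s ≤ q, S.Frc h x s) : S.Frc h x p := S.fs_dense _ _ _ hf

/-- Existence of packages. -/
theorem exists_cld (S : Sys P) (A : Set (PName P)) (hA : A.Countable) (Q : Set (Rule P))
    (hQ : Q.Countable) (p : P) :
    ∃ π : Pkg P, A ⊆ π.N ∧ π.g 0 = p ∧ S.Cld π ∧ ClR Q π := by
  have h0 : S.rules.Countable := by
    unfold Sys.rules
    exact Set.Finite.countable (Set.toFinite _)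
  obtain ⟨π, h1, h2, h3⟩ := exists_pkg (S.rules ∪ Q) (h0.union hQ) A hA p
  exact ⟨π, h1, h2, fun ρ hρ => h3 ρ (Or.inl hρ), fun ρ hρ => h3 ρ (Or.inr hρ)⟩

theorem g_le (π : Pkg P) {m k : ℕ} (h : m ≤ k) : π.g k ≤ π.g m := π.g_anti h

/-- The meaning of forcing. -/
theorem frc_sem {h : UD R} {x : Fin n → PName P} (hx : ∀ i, S.HS (x i)) {p : P} :
    S.Frc h x p ↔ ∀ π : Pkg P, S.Cld π → (∀ i, x i ∈ π.N) → (∃ m, π.g m ≤ p) →
      R (S.Ms π) (π.val ∘ x) := by
  constructor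
  · rintro hf π hcl hxN ⟨m, hm⟩
    exact (frc_iff h hcl fun i => ⟨hxN i, hx i⟩).2 ⟨m, hf.mono hm⟩
  · intro hf
    refine frc_dense fun q hq => ?_
    obtain ⟨π, h1, h2, h3, -⟩ := exists_cld S (Set.range x) (Set.countable_range x) ∅
      Set.countable_empty q
    have h4 : ∀ i, x i ∈ π.N := fun i => h1 ⟨i, rfl⟩
    obtain ⟨k, hk⟩ := (frc_iff h h3 fun i => ⟨h4 i, hx i⟩).1
      (hf π h3 h4 ⟨0, h2.le.trans hq⟩)
    exact ⟨π.g k, (g_le π (Nat.zero_le k)).trans h2.le, hk⟩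

theorem frc_not {h : UD R} {x : Fin n → PName P} (hx : ∀ i, S.HS (x i)) {p : P} :
    S.Frc h.not x p ↔ ∀ q ≤ p, ¬ S.Frc h x q := by
  constructor
  · intro hf q hq hf'
    obtain ⟨π, h1, h2, h3, -⟩ := exists_cld S (Set.range x) (Set.countable_range x) ∅
      Set.countable_empty q
    have h4 : ∀ i, x i ∈ π.N := fun i => h1 ⟨i, rfl⟩
    exact (frc_sem hx).1 hf π h3 h4 ⟨0, h2.le.trans hq⟩ ((frc_sem hx).1 hf' π h3 h4 ⟨0, h2.le⟩)
  · intro hf
    rw [frc_sem hx]
    rintro π hcl hxN ⟨m, hm⟩ hR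
    obtain ⟨k, hk⟩ := (frc_iff h hcl fun i => ⟨hxN i, hx i⟩).1 hR
    exact hf (π.g (max k m)) ((π.g_le_right k m).trans hm) (hk.mono (π.g_le_left k m))

/-- Every condition can be extended to one that decides. -/
theorem frc_dec {h : UD R} {x : Fin n → PName P} (hx : ∀ i, S.HS (x i)) (p : P) :
    ∃ q ≤ p, S.Frc h x q ∨ S.Frc h.not x q := by
  by_cases h1 : ∃ q ≤ p, S.Frc h x q
  · obtain ⟨q, hq, h2⟩ := h1
    exact ⟨q, hq, Or.inl h2⟩
  · push Not at h1
    exact ⟨p, le_rfl, Or.inr ((frc_not hx).2 h1)⟩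

theorem nf_map {g : S.G} (φ : Fml Unit n) : (nf φ : Fml (PName P) n).map (act (S.ac g)) = nf φ := by
  unfold nf
  rw [map_map]
  congr 1
  funext i
  exact act_check (S.top g) _

/-- Invariance of forcing under the automorphisms. -/
theorem frc_act (g : S.G) {h : UD R} {x : Fin n → PName P} {p : P} :
    S.Frc h (fun i => act (S.ac g) (x i)) (S.ac g p) ↔ S.Frc h x p := by
  have h1 := S.fs_act g (nf h.choose) x p
  rw [nf_map] at h1
  exact h1

theorem frc_congr {h : UD R} {x y : Fin n → PName P} {p : P} (hxy : ∀ i, Feq (x i) (y i) p) :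
    S.Frc h x p ↔ S.Frc h y p := by
  have h1 := S.fs_congr (T := Set.univ) (f := id) (nf h.choose) (over_nf h.choose trivial) x y p
    (fun a _ => Feq.refl _ _) hxy
  rw [map_id'] at h1
  exact h1

/-- Invariance of forcing for fixed names. -/
theorem frc_fix {H : Subgroup S.G} {h : UD R} {x : Fin n → PName P}
    (hx : ∀ i, S.Fix H (x i)) {g : S.G} (hg : g ∈ H) {p : P} (hf : S.Frc h x p) :
    S.Frc h x (S.ac g p) := by
  have h1 := (frc_act g).2 hf
  exact (frc_congr fun i => hx i g hg _).1 h1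

end Sys

end Pool.Agent.Q211.SY
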