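import Pool.Agent.Q211.SY.Basic

/-!
# Separation gives symmetric names
-/

set_option autoImplicit false
set_option linter.unusedSectionVars false

namespace Pool.Agent.Q211.SY.T_SEP

open Pool.Agent.W868 Pool.Agent.W868.PName Pool.Agent.Q211.SY

variable {P : Type} [Preorder P] [OrderTop P] (S : Sys P)

/-- Congruence in the first variable. -/
theorem fs_hd {n : ℕ} {φ : Fml (PName P) (n + 1)} {T : Set (PName P)} (hφ : φ.Over T)
    {v : Fin n → PName P} {z w : PName P} {p : P} (h : Feq z w p)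
    (hf : S.FS φ (Fin.cons z v) p) : S.FS φ (Fin.cons w v) p := by
  have h1 := S.fs_congr (T := T) (f := id) φ hφ (Fin.cons z v) (Fin.cons w v) p
    (fun a _ => Feq.refl _ _) ?_
  · rw [map_id'] at h1
    exact h1.1 hf
  · intro i
    refine Fin.cases ?_ (fun i => ?_) i
    · exact h
    · exact Feq.refl _ _

theorem main {n : ℕ} (φ : Fml (PName P) (n + 1)) (v : Fin n → PName P) (x : PName P)
    (hφ : φ.Over {x | S.HS x}) (hv : ∀ i, S.HS (v i)) (hx : S.HS x) :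
    S.HS (S.sepS φ v x) := by
  refine S.hs_iff.2 ⟨?_, fun z c hz => ?_⟩
  swap
  · obtain ⟨d, hd, -, -⟩ := el_subN.1 hz
    exact hx.el hd
  obtain ⟨H1, hH1, h1⟩ := S.exists_over φ
    (Fml.Over.mono (S := {x | S.HS x}) (T := {x | S.Sym x}) (fun x hx => Sys.HS.sym hx) hφ)
  obtain ⟨H2, hH2, h2⟩ := S.exists_fin fun i => (hv i).sym
  obtain ⟨H3, hH3, h3⟩ := hx.sym
  obtain ⟨K, hK, hK1, hK2⟩ := S.inf2 hH1 hH2
  obtain ⟨H, hH, hHK, hHK3⟩ := S.inf2 hK hH3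
  have k1 : φ.Over {x | S.Fix H x} :=
    Fml.Over.mono (fun x hx => Sys.Fix.mono hx (hHK.trans hK1)) h1
  have k2 : ∀ i, S.Fix H (v i) := fun i => (h2 i).mono (hHK.trans hK2)
  have k3 : S.Fix H x := h3.mono hHK3
  refine ⟨H, hH, fun g hg p => ?_⟩
  rw [feq_iff']
  constructor
  · intro z c hz q hq hqc
    obtain ⟨z', c', hz', rfl, rfl⟩ := el_act.1 hz
    obtain ⟨c'', hz'', hc', hf⟩ := el_subN.1 hz'
    have e1 : El (act (S.ac g) x) (act (S.ac g) z') (S.ac g c'') :=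
      el_act.2 ⟨z', c'', hz'', rfl, rfl⟩
    obtain ⟨s, hs, w, d, hw, hd, he⟩ := (feq_iff'.1 (k3 g hg p)).1 _ _ e1 q hq
      (hqc.trans ((S.ac g).le_iff_le.2 hc'))
    refine ⟨s, hs, w, s, el_subN.2 ⟨d, hw, hd, ?_⟩, le_rfl, he⟩
    refine fs_hd S hφ he (Sys.FS.mono (φ := φ) ?_ (hs.trans hqc))
    exact S.fs_fix φ k1 k2 hg hf
  · intro w d hw q hq hqd
    obtain ⟨d', hw', hd', hf⟩ := el_subN.1 hw
    obtain ⟨s, hs, z, c, hz, hc, he⟩ := (feq_iff'.1 (k3 g hg p)).2 _ _ hw' q hq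
      (hqd.trans hd')
    obtain ⟨z', c', hz', rfl, rfl⟩ := el_act.1 hz
    have f1 : S.FS φ (Fin.cons (act (S.ac g) z') v) s :=
      fs_hd S hφ he.symm (Sys.FS.mono (φ := φ) hf (hs.trans hqd))
    have f2 := S.fs_fix φ k1 k2 (H.inv_mem hg) f1
    rw [← act_mul, ← S.ac.map_mul, inv_mul_cancel, S.ac.map_one, act_one] at f2
    have hc2 : S.ac g⁻¹ s ≤ c' := by
      have h4 : S.ac g⁻¹ (S.ac g c') = c' := by
        rw [← RelIso.mul_apply, ← S.ac.map_mul, inv_mul_cancel, S.ac.map_one]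
        rfl
      rw [← h4]
      exact (S.ac g⁻¹).le_iff_le.2 hc
    have h5 : S.ac g (S.ac g⁻¹ s) = s := by
      rw [← RelIso.mul_apply, ← S.ac.map_mul, mul_inv_cancel, S.ac.map_one]
      rfl
    refine ⟨s, hs, act (S.ac g) z', s, ?_, le_rfl, he⟩
    exact el_act.2 ⟨z', S.ac g⁻¹ s, el_subN.2 ⟨c', hz', hc2, f2⟩, rfl, h5.symm⟩

end Pool.Agent.Q211.SY.T_SEP
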