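import Pool.Agent.Q211.SY.Basic

/-!
# The truth lemma for the symmetric submodel
-/

set_option autoImplicit false
set_option linter.unusedSectionVars false

namespace Pool.Agent.Q211.SY.T_TRU

open Pool.Agent.W868 Pool.Agent.W868.PName Pool.Agent.Q211.SY

variable {P : Type} [Preorder P] [OrderTop P]

theorem emp_mem (π : Pkg P) : (emp : PName P) ∈ π.N :=
  (π.closed rPair (by simp [baseRules]) _ (query2e π.om π.om (π.gC 0))).1

/-- The generic sequence decides an open set with a name in the package. -/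
theorem gen_nm (π : Pkg P) {A : Set P} (hA : Sys.nm P A ∈ π.N)
    (hd : ∀ r ∈ A, ∀ s ≤ r, s ∈ A) : ∃ k, π.g k ∈ A ∨ ∀ r ≤ π.g k, r ∉ A := by
  obtain ⟨k, h1, h2⟩ := π.gen ⟨0, .mem (Sum.inr emp) (Sum.inr (Sys.nm P A)), Fin.elim0, ⊤⟩
    ⟨⟨tOver_inr.2 (emp_mem π), tOver_inr.2 hA⟩, fun i => i.elim0⟩
  refine ⟨k, ?_⟩
  rcases h1 with h1 | h1
  · left
    obtain ⟨z, -, c, hc, hk, -⟩ := h2 h1
    obtain ⟨⟨r, hr⟩, rfl, rfl⟩ := hc
    exact hd r hr _ hk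
  · right
    intro r hr hrA
    refine h1 r hr ?_
    refine fmem_iff.2 fun q hq => ⟨q, le_rfl, emp, r, ⟨⟨r, hrA⟩, rfl, rfl⟩, hq, Feq.refl _ _⟩

theorem witS_spec (S : Sys P) {n : ℕ} {φ : Fml (PName P) (n + 1)} {v : Fin n → PName P} {p : P}
    (h : ∃ w, S.HS w ∧ S.FS φ (Fin.cons w v) p) :
    S.HS (S.witS φ v p) ∧ S.FS φ (Fin.cons (S.witS φ v p) v) p := by
  unfold Sys.witS
  rw [dif_pos h]
  exact h.choose_spec

theorem tru (S : Sys P) (π : Pkg P) (hcl : S.Cld π) : {n : ℕ} → (φ : Fml (PName P) n) →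
    φ.Over {x | x ∈ π.N ∧ S.HS x} → (v : Fin n → PName P) →
    (∀ i, v i ∈ π.N ∧ S.HS (v i)) →
      (Sat (S.Ms π) π.val φ (π.val ∘ v) ↔ ∃ k, S.FS φ v (π.g k))
  | _, .mem s t, hφ, v, hv => by
    simp only [Sat, π.elim_val, Sys.FS]
    exact π.val_mem_iff (π.tv_mem (fun i => (hv i).1) (hφ.1.mono fun x hx => hx.1))
      (π.tv_mem (fun i => (hv i).1) (hφ.2.mono fun x hx => hx.1))
  | _, .eq s t, hφ, v, hv => by
    simp only [Sat, π.elim_val, Sys.FS]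
    exact π.val_eq_iff (π.tv_mem (fun i => (hv i).1) (hφ.1.mono fun x hx => hx.1))
      (π.tv_mem (fun i => (hv i).1) (hφ.2.mono fun x hx => hx.1))
  | n, .neg φ, hφ, v, hv => by
    simp only [Sat, Sys.FS]
    rw [tru S π hcl φ hφ v hv]
    constructor
    · intro h
      have h1 : Sys.nm P {r | S.FS φ v r} ∈ π.N :=
        (hcl S.rF (by simp [Sys.rules]) ⟨n, φ, v, π.g 0⟩
          ⟨Fml.Over.mono (S := {x | x ∈ π.N ∧ S.HS x}) (φ := φ) (fun x hx => hx.1) hφ,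
            fun i => (hv i).1, π.gC 0⟩).1
      obtain ⟨k, h2 | h2⟩ := gen_nm π h1 fun r hr s hs => Sys.FS.mono (φ := φ) hr hs
      · exact absurd ⟨k, h2⟩ h
      · exact ⟨k, h2⟩
    · rintro ⟨k, hk⟩ ⟨m, hm⟩
      exact hk _ (π.g_le_left k m) (Sys.FS.mono (φ := φ) hm (π.g_le_right k m))
  | _, .and φ ψ, hφ, v, hv => by
    simp only [Sat, Sys.FS]
    rw [tru S π hcl φ hφ.1 v hv, tru S π hcl ψ hφ.2 v hv]
    constructor
    · rintro ⟨⟨k, hk⟩, ⟨m, hm⟩⟩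
      exact ⟨max k m, Sys.FS.mono (φ := φ) hk (π.g_le_left k m),
        Sys.FS.mono (φ := ψ) hm (π.g_le_right k m)⟩
    · rintro ⟨k, h1, h2⟩
      exact ⟨⟨k, h1⟩, ⟨k, h2⟩⟩
  | n, .ex φ, hφ, v, hv => by
    have ih := fun x (hx : x ∈ π.N ∧ S.HS x) => tru S π hcl φ hφ (Fin.cons x v)
      (Pkg.cons_mem (S := {x | x ∈ π.N ∧ S.HS x}) hx hv)
    simp only [Pkg.comp_cons] at ih
    simp only [Sat]
    have hφ' : Fml.Over π.N (.ex φ) :=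
      Fml.Over.mono (S := {x | x ∈ π.N ∧ S.HS x}) (φ := .ex φ) (fun x hx => hx.1) hφ
    constructor
    · rintro ⟨_, ⟨x, hx, rfl⟩, hs⟩
      obtain ⟨k, hk⟩ := (ih x hx).1 hs
      exact ⟨k, fun q hq => ⟨q, le_rfl, x, hx.2, Sys.FS.mono (φ := φ) hk hq⟩⟩
    · rintro ⟨k, hk⟩
      have h1 : Sys.nm P {r | ∃ x, S.HS x ∧ S.FS φ (Fin.cons x v) r} ∈ π.N :=
        (hcl S.rX (by simp [Sys.rules]) ⟨n, .ex φ, v, π.g 0⟩
          ⟨hφ', fun i => (hv i).1, π.gC 0⟩).1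
      obtain ⟨m, h2 | h2⟩ := gen_nm π h1 fun r ⟨x, hx, hr⟩ s hs =>
        ⟨x, hx, Sys.FS.mono (φ := φ) hr hs⟩
      · have h3 := (hcl S.rWt (by simp [Sys.rules]) ⟨n, .ex φ, v, π.g m⟩
          ⟨hφ', fun i => (hv i).1, π.gC m⟩).1
        have h4 := witS_spec S h2
        exact ⟨_, ⟨_, ⟨h3, h4.1⟩, rfl⟩, (ih _ ⟨h3, h4.1⟩).2 ⟨m, h4.2⟩⟩
      · exfalso
        obtain ⟨s, hs, x, hx, hf⟩ := hk _ (π.g_le_right m k)
        exact h2 s (hs.trans (π.g_le_left m k)) ⟨x, hx, hf⟩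

end Pool.Agent.Q211.SY.T_TRU
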