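import Pool.Agent.Q211.SY.T_ZF
import Pool.Agent.Q211.SY.Hul
import Pool.Agent.W868.Ext
import Pool.Agent.W868.Tool

/-!
# Relations that are uniformly definable in all transitive models of ZF
-/

set_option autoImplicit false
set_option linter.unreachableTactic false
set_option linter.unusedTactic false
set_option linter.unusedSectionVars false

namespace Pool.Agent.Q211.SY

open Pool.Agent.W868 Pool.Agent.W868.PName
open ZFSet (pair)

/-- `R` is uniformly definable in the transitive models of ZF, with the parameter `ω`. -/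
def UD {n : ℕ} (R : Set ZFSet.{0} → (Fin n → ZFSet.{0}) → Prop) : Prop :=
  ∃ φ : Fml Unit n, ∀ M, IsZF M → ∀ v, (∀ i, v i ∈ M) →
    (Sat M (fun _ => ZFSet.omega) φ v ↔ R M v)

/-- `F` is a uniformly definable operation on the transitive models of ZF. -/
def UF {n : ℕ} (F : Set ZFSet.{0} → (Fin n → ZFSet.{0}) → ZFSet.{0}) : Prop :=
  (∀ M, IsZF M → ∀ v, (∀ i, v i ∈ M) → F M v ∈ M) ∧
    UD (fun M (w : Fin (n + 1) → ZFSet.{0}) => w 0 = F M (Fin.tail w))

section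

variable {n : ℕ} {R T : Set ZFSet.{0} → (Fin n → ZFSet.{0}) → Prop}

theorem UD.congr (h : UD R)
    (h' : ∀ M : Set ZFSet.{0}, IsZF M → ∀ v, (∀ i, v i ∈ M) → (R M v ↔ T M v)) : UD T := by
  obtain ⟨φ, h2⟩ := h
  exact ⟨φ, fun M hM v hv => (h2 M hM v hv).trans (h' M hM v hv)⟩

theorem UD.not (h : UD R) : UD fun M v => ¬ R M v := by
  obtain ⟨φ, h2⟩ := h
  exact ⟨.neg φ, fun M hM v hv => not_congr (h2 M hM v hv)⟩

theorem UD.and (h : UD R) (h' : UD T) : UD fun M v => R M v ∧ T M v := by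
  obtain ⟨φ, h2⟩ := h
  obtain ⟨ψ, h4⟩ := h'
  exact ⟨.and φ ψ, fun M hM v hv => and_congr (h2 M hM v hv) (h4 M hM v hv)⟩

theorem UD.or (h : UD R) (h' : UD T) : UD fun M v => R M v ∨ T M v :=
  (h.not.and h'.not).not.congr fun M _ v _ => by tauto

theorem UD.imp (h : UD R) (h' : UD T) : UD fun M v => R M v → T M v :=
  (h.and h'.not).not.congr fun M _ v _ => by tauto

theorem UD.iff (h : UD R) (h' : UD T) : UD fun M v => R M v ↔ T M v :=
  ((h.imp h').and (h'.imp h)).congr fun M _ v _ => by tauto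

theorem UD.ex {Q : Set ZFSet.{0} → ZFSet.{0} → (Fin n → ZFSet.{0}) → Prop}
    (h : UD fun M (w : Fin (n + 1) → ZFSet.{0}) => Q M (w 0) (Fin.tail w)) :
    UD fun M v => ∃ a ∈ M, Q M a v := by
  obtain ⟨φ, h2⟩ := h
  refine ⟨.ex φ, fun M hM v hv => ?_⟩
  simp only [Sat]
  constructor
  · rintro ⟨a, ha, h3⟩
    exact ⟨a, ha, (h2 M hM _ (Pkg.cons_mem ha hv)).1 h3⟩
  · rintro ⟨a, ha, h3⟩
    exact ⟨a, ha, (h2 M hM _ (Pkg.cons_mem ha hv)).2 h3⟩

theorem UD.all {Q : Set ZFSet.{0} → ZFSet.{0} → (Fin n → ZFSet.{0}) → Prop}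
    (h : UD fun M (w : Fin (n + 1) → ZFSet.{0}) => Q M (w 0) (Fin.tail w)) :
    UD fun M v => ∀ a ∈ M, Q M a v := by
  have h1 : UD fun M v => ∃ a ∈ M, ¬ Q M a v :=
    UD.ex (Q := fun M a v => ¬ Q M a v) h.not
  exact h1.not.congr fun M _ v _ => by
    constructor
    · intro h2 a ha
      by_contra h3
      exact h2 ⟨a, ha, h3⟩
    · rintro h2 ⟨a, ha, h3⟩
      exact h3 (h2 a ha)

theorem UD.comp (h : UD R) {m : ℕ} (ρ : Fin n → Fin m) :
    UD fun M (v : Fin m → ZFSet.{0}) => R M fun i => v (ρ i) := by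
  obtain ⟨φ, h2⟩ := h
  refine ⟨φ.subst fun i => Sum.inl (ρ i), ?_⟩
  intro M hM v hv
  rw [sat_subst]
  exact h2 M hM _ fun i => hv _

theorem UF.tail {F : Set ZFSet.{0} → (Fin n → ZFSet.{0}) → ZFSet.{0}} (h : UF F) :
    UF fun M (w : Fin (n + 1) → ZFSet.{0}) => F M (Fin.tail w) := by
  refine ⟨fun M hM v hv => h.1 M hM _ fun i => hv _, ?_⟩
  have h2 := h.2.comp (Fin.cons 0 fun i : Fin n => i.succ.succ : Fin (n + 1) → Fin (n + 2))
  exact h2

theorem UF.proj (i : Fin n) : UF fun _ v => v i := by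
  refine ⟨fun M hM v hv => hv i, .eq (Sum.inl 0) (Sum.inl i.succ), ?_⟩
  intro M _ v _
  rfl

theorem UD.subst {Q : Set ZFSet.{0} → ZFSet.{0} → (Fin n → ZFSet.{0}) → Prop}
    {F : Set ZFSet.{0} → (Fin n → ZFSet.{0}) → ZFSet.{0}}
    (h : UD fun M (w : Fin (n + 1) → ZFSet.{0}) => Q M (w 0) (Fin.tail w))
    (hF : UF F) : UD fun M v => Q M (F M v) v := by
  have h1 : UD fun M v => ∃ a ∈ M, a = F M v ∧ Q M a v :=
    UD.ex (Q := fun M a v => a = F M v ∧ Q M a v) (hF.2.and h)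
  exact h1.congr fun M hM v hv => by
    constructor
    · rintro ⟨a, _, rfl, h2⟩
      exact h2
    · intro h2
      exact ⟨F M v, hF.1 M hM v hv, rfl, h2⟩

theorem UD.comp1 {Q : ZFSet.{0} → Prop} {F : Set ZFSet.{0} → (Fin n → ZFSet.{0}) → ZFSet.{0}}
    (h : UD fun _ (w : Fin 1 → ZFSet.{0}) => Q (w 0)) (hF : UF F) :
    UD fun M v => Q (F M v) := by
  have h1 := h.comp (fun _ => 0 : Fin 1 → Fin (n + 1))
  exact UD.subst (Q := fun _ a _ => Q a) h1 hF

theorem UD.comp2 {Q : ZFSet.{0} → ZFSet.{0} → Prop}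
    {F G : Set ZFSet.{0} → (Fin n → ZFSet.{0}) → ZFSet.{0}}
    (h : UD fun _ (w : Fin 2 → ZFSet.{0}) => Q (w 0) (w 1)) (hF : UF F)
    (hG : UF G) : UD fun M v => Q (F M v) (G M v) := by
  refine UD.subst (Q := fun M a v => Q a (G M v)) ?_ hF
  refine UD.subst (Q := fun M a v => Q (v 0) a) ?_ hG.tail
  exact h.comp ![1, 0]

theorem UD.comp3 {Q : ZFSet.{0} → ZFSet.{0} → ZFSet.{0} → Prop}
    {F G H : Set ZFSet.{0} → (Fin n → ZFSet.{0}) → ZFSet.{0}}
    (h : UD fun _ (w : Fin 3 → ZFSet.{0}) => Q (w 0) (w 1) (w 2)) (hF : UF F)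
    (hG : UF G) (hH : UF H) : UD fun M v => Q (F M v) (G M v) (H M v) := by
  refine UD.subst (Q := fun M a v => Q a (G M v) (H M v)) ?_ hF
  refine UD.subst (Q := fun M a v => Q (v 0) a (H M (Fin.tail v))) ?_ hG.tail
  refine UD.subst (Q := fun M a v => Q (v 1) (v 0) a) ?_ hH.tail.tail
  exact h.comp ![2, 1, 0]

theorem UD.mem {F G : Set ZFSet.{0} → (Fin n → ZFSet.{0}) → ZFSet.{0}} (hF : UF F)
    (hG : UF G) : UD fun M v => F M v ∈ G M v := by
  refine UD.comp2 (Q := fun a b => a ∈ b) ?_ hF hG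
  exact ⟨.mem (Sum.inl 0) (Sum.inl 1), fun M _ v _ => Iff.rfl⟩

theorem UD.eq {F G : Set ZFSet.{0} → (Fin n → ZFSet.{0}) → ZFSet.{0}} (hF : UF F)
    (hG : UF G) : UD fun M v => F M v = G M v := by
  refine UD.comp2 (Q := fun a b => a = b) ?_ hF hG
  exact ⟨.eq (Sum.inl 0) (Sum.inl 1), fun M _ v _ => Iff.rfl⟩

theorem UF.comp1 {f : ZFSet.{0} → ZFSet.{0}} {F : Set ZFSet.{0} → (Fin n → ZFSet.{0}) → ZFSet.{0}}
    (h : UF fun _ (w : Fin 1 → ZFSet.{0}) => f (w 0)) (hF : UF F) :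
    UF fun M v => f (F M v) := by
  refine ⟨fun M hM v hv => h.1 M hM (fun _ => F M v) fun _ => hF.1 M hM v hv, ?_⟩
  exact UD.comp2 (Q := fun a b => a = f b) h.2 (UF.proj 0) hF.tail

theorem UF.comp2 {f : ZFSet.{0} → ZFSet.{0} → ZFSet.{0}}
    {F G : Set ZFSet.{0} → (Fin n → ZFSet.{0}) → ZFSet.{0}}
    (h : UF fun _ (w : Fin 2 → ZFSet.{0}) => f (w 0) (w 1)) (hF : UF F)
    (hG : UF G) : UF fun M v => f (F M v) (G M v) := by
  refine ⟨fun M hM v hv => h.1 M hM ![F M v, G M v] ?_, ?_⟩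
  · intro i
    fin_cases i
    · exact hF.1 M hM v hv
    · exact hG.1 M hM v hv
  · exact UD.comp3 (Q := fun a b c => a = f b c) h.2 (UF.proj 0) hF.tail hG.tail

theorem UD.bex {F : Set ZFSet.{0} → (Fin n → ZFSet.{0}) → ZFSet.{0}}
    {Q : Set ZFSet.{0} → ZFSet.{0} → (Fin n → ZFSet.{0}) → Prop} (hF : UF F)
    (h : UD fun M (w : Fin (n + 1) → ZFSet.{0}) => Q M (w 0) (Fin.tail w)) :
    UD fun M v => ∃ a ∈ F M v, Q M a v := by
  have h1 : UD fun M v => ∃ a ∈ M, a ∈ F M v ∧ Q M a v :=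
    UD.ex (Q := fun M a v => a ∈ F M v ∧ Q M a v) ((UD.mem (UF.proj 0) hF.tail).and h)
  exact h1.congr fun M hM v hv => by
    constructor
    · rintro ⟨a, _, h2⟩
      exact ⟨a, h2⟩
    · rintro ⟨a, h2, h3⟩
      exact ⟨a, hM.trans _ (hF.1 M hM v hv) a h2, h2, h3⟩

theorem UD.ball {F : Set ZFSet.{0} → (Fin n → ZFSet.{0}) → ZFSet.{0}}
    {Q : Set ZFSet.{0} → ZFSet.{0} → (Fin n → ZFSet.{0}) → Prop} (hF : UF F)
    (h : UD fun M (w : Fin (n + 1) → ZFSet.{0}) => Q M (w 0) (Fin.tail w)) :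
    UD fun M v => ∀ a ∈ F M v, Q M a v := by
  have h1 : UD fun M v => ∃ a ∈ F M v, ¬ Q M a v :=
    UD.bex (Q := fun M a v => ¬ Q M a v) hF h.not
  exact h1.not.congr fun M _ v _ => by
    constructor
    · intro h2 a ha
      by_contra h3
      exact h2 ⟨a, ha, h3⟩
    · rintro h2 ⟨a, ha, h3⟩
      exact h3 (h2 a ha)

theorem UF.upair {F G : Set ZFSet.{0} → (Fin n → ZFSet.{0}) → ZFSet.{0}} (hF : UF F)
    (hG : UF G) : UF fun M v => ({F M v, G M v} : ZFSet.{0}) := by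
  refine UF.comp2 (f := fun a b => ({a, b} : ZFSet.{0})) ?_ hF hG
  refine ⟨fun M hM v hv => hM.pairing _ (hv 0) _ (hv 1), ?_⟩
  have h1 : UD fun _ (w : Fin 3 → ZFSet.{0}) => w 1 ∈ w 0 ∧ w 2 ∈ w 0 ∧
      ∀ x ∈ w 0, x = w 1 ∨ x = w 2 := by
    refine (UD.mem (UF.proj _) (UF.proj _)).and
      ((UD.mem (UF.proj _) (UF.proj _)).and ?_)
    refine UD.ball (UF.proj _) ?_
    exact (UD.eq (UF.proj _) (UF.proj 2)).or (UD.eq (UF.proj _) (UF.proj 3))
  exact h1.congr fun M hM v hv => by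
    constructor
    · rintro ⟨h2, h3, h4⟩
      ext z
      rw [ZFSet.mem_pair]
      exact ⟨fun hz => h4 z hz, fun hz => hz.elim (fun h => h ▸ h2) (fun h => h ▸ h3)⟩
    · intro h2
      have h3 : ∀ z, z ∈ v 0 ↔ z = v 1 ∨ z = v 2 := by
        intro z
        rw [h2, ZFSet.mem_pair]
        rfl
      exact ⟨(h3 _).2 (Or.inl rfl), (h3 _).2 (Or.inr rfl), fun x hx => (h3 x).1 hx⟩

theorem UF.pair {F G : Set ZFSet.{0} → (Fin n → ZFSet.{0}) → ZFSet.{0}} (hF : UF F)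
    (hG : UF G) : UF fun M v => ZFSet.pair (F M v) (G M v) := by
  have h := (hF.upair hF).upair (hF.upair hG)
  simp only [ZFSet.pair_eq_singleton] at h
  exact h

theorem UF.om : UF fun _ (_ : Fin n → ZFSet.{0}) => ZFSet.omega :=
  ⟨fun _ hM _ _ => hM.infinity, .eq (Sum.inl 0) (Sum.inr ()), fun _ _ _ _ => Iff.rfl⟩

theorem UD.tt : UD fun _ (_ : Fin n → ZFSet.{0}) => True := by
  refine ⟨.eq (Sum.inr ()) (Sum.inr ()), fun M _ v _ => ?_⟩
  simp [Sat]

theorem UD.prop (p : Prop) : UD fun _ (_ : Fin n → ZFSet.{0}) => p := by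
  by_cases h : p
  · exact UD.tt.congr fun M _ v _ => by simp [h]
  · exact UD.tt.not.congr fun M _ v _ => by simp [h]

theorem UD.tail {Q : Set ZFSet.{0} → (Fin n → ZFSet.{0}) → Prop} (h : UD Q) :
    UD fun M (w : Fin (n + 1) → ZFSet.{0}) => Q M (Fin.tail w) := h.comp Fin.succ

theorem UD.subset {F G : Set ZFSet.{0} → (Fin n → ZFSet.{0}) → ZFSet.{0}} (hF : UF F)
    (hG : UF G) : UD fun M v => F M v ⊆ G M v := by
  have h : UD fun _ (w : Fin 2 → ZFSet.{0}) => ∀ x ∈ w 0, x ∈ w 1 := by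
    (repeat' first
      | assumption
      | exact UF.proj _
      | exact UF.om
      | exact UD.prop _
      | apply UD.not | apply UD.and | apply UD.or | apply UD.imp | apply UD.iff
      | apply UD.bex | apply UD.ball | apply UD.ex | apply UD.all
      | apply UD.eq | apply UD.mem | apply UF.pair)
  exact UD.comp2 (Q := fun a b => a ⊆ b) h hF hG

theorem UF.empty : UF fun _ (_ : Fin n → ZFSet.{0}) => (∅ : ZFSet.{0}) := by
  refine ⟨fun _ hM _ _ => hM.empty_mem, ?_⟩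
  have h : UD fun _ (w : Fin (n + 1) → ZFSet.{0}) => ∀ x ∈ w 0, False := by
    (repeat' first
      | assumption
      | exact UF.proj _
      | exact UF.om
      | exact UD.prop _
      | apply UD.not | apply UD.and | apply UD.or | apply UD.imp | apply UD.iff
      | apply UD.bex | apply UD.ball | apply UD.ex | apply UD.all
      | apply UD.eq | apply UD.mem | apply UF.pair)
  exact h.congr fun M _ v _ => by
    rw [ZFSet.eq_empty]

theorem UF.sUnion {F : Set ZFSet.{0} → (Fin n → ZFSet.{0}) → ZFSet.{0}} (hF : UF F) :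
    UF fun M v => (ZFSet.sUnion (F M v) : ZFSet.{0}) := by
  refine UF.comp1 (f := fun a => (ZFSet.sUnion a : ZFSet.{0})) ?_ hF
  refine ⟨fun M hM v hv => hM.union _ (hv 0), ?_⟩
  have h : UD fun _ (w : Fin 2 → ZFSet.{0}) => (∀ x ∈ w 0, ∃ y ∈ w 1, x ∈ y) ∧
      ∀ y ∈ w 1, ∀ x ∈ y, x ∈ w 0 := by
    (repeat' first
      | assumption
      | exact UF.proj _
      | exact UF.om
      | exact UD.prop _
      | apply UD.not | apply UD.and | apply UD.or | apply UD.imp | apply UD.iff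
      | apply UD.bex | apply UD.ball | apply UD.ex | apply UD.all
      | apply UD.eq | apply UD.mem | apply UF.pair)
  exact h.congr fun M _ v hv => by
    constructor
    · rintro ⟨h1, h2⟩
      ext z
      rw [ZFSet.mem_sUnion]
      exact ⟨fun hz => h1 z hz, fun ⟨y, hy, hz⟩ => h2 y hy z hz⟩
    · intro h1
      have h2 : ∀ z, z ∈ v 0 ↔ ∃ y ∈ v 1, z ∈ y := by
        intro z
        rw [h1, ZFSet.mem_sUnion]
        rfl
      exact ⟨fun x hx => (h2 x).1 hx, fun y hy x hx => (h2 x).2 ⟨y, hy, hx⟩⟩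

theorem UF.single {F : Set ZFSet.{0} → (Fin n → ZFSet.{0}) → ZFSet.{0}} (hF : UF F) :
    UF fun M v => ({F M v} : ZFSet.{0}) := by
  have h := hF.upair hF
  simpa only [ZFSet.pair_eq_singleton] using h

theorem UF.union {F G : Set ZFSet.{0} → (Fin n → ZFSet.{0}) → ZFSet.{0}} (hF : UF F)
    (hG : UF G) : UF fun M v => F M v ∪ G M v := by
  have h := (hF.upair hG).sUnion
  simpa only [ZFSet.sUnion_pair] using h

theorem UF.insert {F G : Set ZFSet.{0} → (Fin n → ZFSet.{0}) → ZFSet.{0}} (hF : UF F)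
    (hG : UF G) : UF fun M v => (Insert.insert (F M v) (G M v) : ZFSet.{0}) := by
  have h := hF.single.union hG
  have h1 : ∀ M v, ({F M v} ∪ G M v : ZFSet.{0}) = Insert.insert (F M v) (G M v) := by
    intro M v
    ext z
    simp
  simpa only [h1] using h

theorem UF.nat (k : ℕ) : UF fun _ (_ : Fin n → ZFSet.{0}) => nat k := by
  induction k with
  | zero => exact UF.empty
  | succ k ih => exact ih.insert ih

theorem UD.isFunc {F G H : Set ZFSet.{0} → (Fin n → ZFSet.{0}) → ZFSet.{0}} (hF : UF F)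
    (hG : UF G) (hH : UF H) : UD fun M v => ZFSet.IsFunc (F M v) (G M v) (H M v) := by
  have h : UD fun _ (w : Fin 3 → ZFSet.{0}) =>
      (∀ p ∈ w 2, ∃ a ∈ w 0, ∃ b ∈ w 1, p = pair a b) ∧
      ∀ a ∈ w 0, ∃ b ∈ w 1, pair a b ∈ w 2 ∧ ∀ c ∈ w 1, pair a c ∈ w 2 → c = b := by
    (repeat' first
      | assumption
      | exact UF.proj _
      | exact UF.om
      | exact UD.prop _
      | apply UD.not | apply UD.and | apply UD.or | apply UD.imp | apply UD.iff
      | apply UD.bex | apply UD.ball | apply UD.ex | apply UD.all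
      | apply UD.eq | apply UD.mem | apply UF.pair)
  refine UD.comp3 (Q := fun a b c => ZFSet.IsFunc a b c) (h.congr fun M _ v _ => ?_) hF hG hH
  constructor
  · rintro ⟨h1, h2⟩
    have h3 : v 2 ⊆ ZFSet.prod (v 0) (v 1) := by
      intro p hp
      obtain ⟨a, ha, b, hb, rfl⟩ := h1 p hp
      exact ZFSet.mem_prod.2 ⟨a, ha, b, hb, rfl⟩
    refine ⟨h3, fun z hz => ?_⟩
    obtain ⟨b, hb, h4, h5⟩ := h2 z hz
    exact ⟨b, h4, fun c hc => h5 c (ZFSet.pair_mem_prod.1 (h3 hc)).2 hc⟩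
  · rintro ⟨h1, h2⟩
    refine ⟨fun p hp => ZFSet.mem_prod.1 (h1 hp), fun a ha => ?_⟩
    obtain ⟨b, hb, h3⟩ := h2 a ha
    exact ⟨b, (ZFSet.pair_mem_prod.1 (h1 hb)).2, hb, fun c _ hc => h3 c hc⟩

theorem UD.isInj {F G H : Set ZFSet.{0} → (Fin n → ZFSet.{0}) → ZFSet.{0}} (hF : UF F)
    (hG : UF G) (hH : UF H) : UD fun M v => IsInj (F M v) (G M v) (H M v) := by
  have h : UD fun _ (w : Fin 3 → ZFSet.{0}) => ZFSet.IsFunc (w 0) (w 1) (w 2) ∧
      ∀ a ∈ w 0, ∀ b ∈ w 0, ∀ c ∈ w 1, pair a c ∈ w 2 → pair b c ∈ w 2 → a = b := by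
    refine (UD.isFunc (UF.proj _) (UF.proj _) (UF.proj _)).and ?_
    (repeat' first
      | assumption
      | exact UF.proj _
      | exact UF.om
      | exact UD.prop _
      | apply UD.not | apply UD.and | apply UD.or | apply UD.imp | apply UD.iff
      | apply UD.bex | apply UD.ball | apply UD.ex | apply UD.all
      | apply UD.eq | apply UD.mem | apply UF.pair)
  refine UD.comp3 (Q := fun a b c => IsInj a b c) (h.congr fun M _ v _ => ?_) hF hG hH
  constructor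
  · rintro ⟨h1, h2⟩
    refine ⟨h1, fun a b c ha hb => ?_⟩
    have h3 := ZFSet.pair_mem_prod.1 (h1.1 ha)
    have h4 := ZFSet.pair_mem_prod.1 (h1.1 hb)
    exact h2 a h3.1 b h4.1 c h3.2 ha hb
  · rintro ⟨h1, h2⟩
    exact ⟨h1, fun a _ b _ c _ h3 h4 => h2 a b c h3 h4⟩

end

end Pool.Agent.Q211.SY
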